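import Mathlib
import Pool.Agent.Q132.SAlpha.Dyn

open Filter Topology Set

namespace Pool.Agent.Results.MP_0765f6_an.NotClosed

/-- A backward orbit branch of `x` in `[0,1]`. -/
def IsBranch (f : ℝ → ℝ) (x : ℝ) (u : ℕ → ℝ) : Prop :=
  u 0 = x ∧ (∀ k, u k ∈ Icc (0 : ℝ) 1) ∧ ∀ k, f (u (k + 1)) = u k

/-- The special `α`-limit set of `x`: the accumulation points of the backward orbit branches. -/
def sAlpha (f : ℝ → ℝ) (x : ℝ) : Set ℝ :=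
  {y | y ∈ Icc (0 : ℝ) 1 ∧ ∃ u : ℕ → ℝ, IsBranch f x u ∧
    ∃ φ : ℕ → ℕ, StrictMono φ ∧ Tendsto (fun k => u (φ k)) atTop (𝓝 y)}

/-- There is a `C^1` function `f` on the line mapping `[0,1]` to itself for which the special
`α`-limit set of every `x ∈ [1/4,3/4]` fails to be closed. -/
theorem result : ∃ f : ℝ → ℝ, ContDiff ℝ 1 f ∧ (∀ t ∈ Icc (0 : ℝ) 1, f t ∈ Icc (0 : ℝ) 1) ∧
    ∀ x ∈ Icc (1 / 4 : ℝ) (3 / 4), ¬ IsClosed (sAlpha f x) := by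
  refine ⟨Pool.Agent.Q132.SAlpha.f, Pool.Agent.Q132.SAlpha.contDiff_f,
    fun t ht => Pool.Agent.Q132.SAlpha.f_unit ht, fun x hx => ?_⟩
  exact Pool.Agent.Q132.SAlpha.not_closed hx.1 hx.2

end Pool.Agent.Results.MP_0765f6_an.NotClosed
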